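import Pool.Agent.V8H2.QW.Pri

/-!
# The number of the representations `N = p + m²`: an upper bound for all but few integers

For every `1/2 ≤ τ ≤ 3/4` and for all but `X^(2/3+ε) + X^(2 τ+ε) / M` of the integers `N ≤ X`, the number of the `m ≤ M`
for which `N - m²` is a prime is at most `2 / τ + δ` times the number `S(N) M / log X` predicted by the conjecture of
Hardy and Littlewood, where the product `S(N)` is taken over the primes below `X^(1/4)`. With `M = X^ξ` the factor is thus
`4 / (1 + ξ) + δ` for all but `X^(1-η)` integers; for `M = √X` it is `8 / 3 + δ`. For an individual `N` the sieve has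
the level `M` only, and gives `2 / ξ + δ`.
-/

set_option autoImplicit false

open Finset

namespace Pool.Agent.Results.MP_d48457_nt.UpperBoundFewExceptions

/-- the number of the residues `n` modulo `p` with `n² ≡ N` -/
def rootCount (N p : ℕ) : ℕ := #((range p).filter (fun n : ℕ => (p : ℤ) ∣ (N : ℤ) - (n : ℤ) ^ 2))

/-- the product `∏_{p < z} (1 - ρ(p) / p) / (1 - 1 / p)` over the primes, `ρ(p)` being the number of the roots
modulo `p` -/
noncomputable def singularProduct (N : ℕ) (z : ℝ) : ℝ :=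
  ∏ p ∈ (range ⌈z⌉₊).filter Nat.Prime, (1 - (rootCount N p : ℝ) / p) / (1 - 1 / (p : ℝ))

/-- the number of the integers `1 ≤ m ≤ M` such that `m² ≤ N` and `N - m²` is a prime -/
def representations (N M : ℕ) : ℕ := #((Icc 1 M).filter (fun m : ℕ => m ^ 2 ≤ N ∧ (N - m ^ 2).Prime))

open Classical in
/-- **Upper bounds for the number of the representations as the sum of a prime and a square.** Let `β, δ, ε > 0` and
`1/2 ≤ τ ≤ 3/4`. For all `X ≥ X₀` and all natural numbers `M ≥ X^β`, the number of the integers `1 ≤ N ≤ X` for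
which more than `(2/τ + δ) S(N) M / log X` of the `1 ≤ m ≤ M` make `N - m²` a prime, where `S(N)` is the product
over the primes below `X^(1/4)`, is at most `X^(2/3 + ε) + X^(2 τ + ε) / M`. -/
theorem result (β τ δ ε : ℝ) (hβ : 0 < β) (hτ1 : 1 / 2 ≤ τ) (hτ2 : τ ≤ 3 / 4) (hδ : 0 < δ) (hε : 0 < ε) :
    ∃ X₀ : ℕ, ∀ X : ℕ, X₀ ≤ X → ∀ M : ℕ, (X : ℝ) ^ β ≤ M →
      (#((Icc 1 X).filter (fun N : ℕ =>
        (2 / τ + δ) * (singularProduct N ((X : ℝ) ^ (1 / 4 : ℝ)) * (M / Real.log X)) <
          (representations N M : ℝ))) : ℝ) ≤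
        (X : ℝ) ^ (2 / 3 + ε) + (X : ℝ) ^ (2 * τ + ε) / M := by
  obtain ⟨X₀, h⟩ := Pool.Agent.V8H2.QW.upQ 1 β τ δ ε hβ hτ1 hτ2 hδ hε
  refine ⟨X₀, fun X hX M hM => ?_⟩
  refine le_trans ?_ (h X hX (-1) 0 M (by norm_num) (by norm_num) hM)
  have h2 : #((Icc 1 X).filter (fun N : ℕ =>
        (2 / τ + δ) * (singularProduct N ((X : ℝ) ^ (1 / 4 : ℝ)) * (M / Real.log X)) <
          (representations N M : ℝ))) ≤
      #((Icc (-(X : ℤ)) (X : ℤ)).filter (fun k => Pool.Agent.V8H2.QW.Adm (-1) 0 k ∧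
          (2 / τ + δ) * (Pool.Agent.V8H2.QW.sing (-1) 0 k ((X : ℝ) ^ (1 / 4 : ℝ)) * (M / Real.log X)) <
            (Pool.Agent.V8H2.QW.prc (-1) 0 k M : ℝ))) := by
    apply card_le_card_of_injOn (fun N : ℕ => (N : ℤ))
    · intro N hN
      rw [mem_coe, mem_filter, mem_Icc] at hN
      obtain ⟨⟨hN1, hN2⟩, hN3⟩ := hN
      rw [mem_coe, mem_filter, mem_Icc]
      show (-(X : ℤ) ≤ (N : ℤ) ∧ (N : ℤ) ≤ (X : ℤ)) ∧ _ ∧ _
      refine ⟨⟨by omega, by omega⟩, ?_, ?_⟩
      · intro p hp
        by_contra hcon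
        push Not at hcon
        have h0 := hcon 0
        have h1 := dvd_sub h0 (hcon 1)
        have e : (-1 : ℤ) * 0 ^ 2 + 0 * 0 + (N : ℤ) - (-1 * 1 ^ 2 + 0 * 1 + (N : ℤ)) = 1 := by ring
        rw [e] at h1
        exact (Nat.prime_iff_prime_int.1 hp).not_dvd_one h1
      · have e1 : singularProduct N ((X : ℝ) ^ (1 / 4 : ℝ)) =
            Pool.Agent.V8H2.QW.sing (-1) 0 (N : ℤ) ((X : ℝ) ^ (1 / 4 : ℝ)) := by
          unfold singularProduct Pool.Agent.V8H2.QW.sing
          apply prod_congr rfl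
          intro p _
          rw [Pool.Agent.Y882.PX.ro_eq]
          unfold rootCount
          simp only [Pool.Agent.V8H2.QW.FQ_eval]
          congr 4
          apply congrArg card
          apply filter_congr
          intro n _
          rw [show (-1 : ℤ) * (n : ℤ) ^ 2 + 0 * n + N = (N : ℤ) - (n : ℤ) ^ 2 by ring]
        have e2 : representations N M ≤ Pool.Agent.V8H2.QW.prc (-1) 0 (N : ℤ) M := by
          unfold Pool.Agent.V8H2.QW.prc representations
          apply card_le_card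
          intro m hm
          rw [mem_filter, mem_Icc] at hm ⊢
          obtain ⟨⟨hm1, hm2⟩, hm3, hm4⟩ := hm
          refine ⟨⟨hm1, hm2⟩, ?_⟩
          have h4 : ((-1 : ℤ) * (m : ℤ) ^ 2 + 0 * m + N).natAbs = N - m ^ 2 := by
            have : (-1 : ℤ) * (m : ℤ) ^ 2 + 0 * m + N = ((N - m ^ 2 : ℕ) : ℤ) := by
              push_cast [Nat.cast_sub hm3]
              ring
            rw [this, Int.natAbs_natCast]
          rw [h4]
          exact hm4
        have e2r : (representations N M : ℝ) ≤ (Pool.Agent.V8H2.QW.prc (-1) 0 (N : ℤ) M : ℝ) := by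
          exact_mod_cast e2
        rw [← e1]
        exact lt_of_lt_of_le hN3 e2r
    · intro x _ y _ hxy
      have h' : (x : ℤ) = (y : ℤ) := hxy
      exact_mod_cast h'
  exact_mod_cast h2

end Pool.Agent.Results.MP_d48457_nt.UpperBoundFewExceptions
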